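import Pool.Agent.Y169.CH.Kod

/-!
The numerical estimate for the uniform pluricanonical forms.
-/

set_option autoImplicit false
set_option linter.overlappingInstances false
set_option linter.unusedSectionVars false

open Pool.Agent.Y169.CH

namespace Pool.Agent.Q57.EI

variable {r R : ℕ}

/-- the factorial -/
def LL (N : ℕ) : ℕ := (2 * (N + 1) * (N + 2)).factorial

/-- the uniform multiple -/
def TT (N : ℕ) : ℕ := 2 * (N + 2) * LL N

theorem LL_pos (N : ℕ) : 1 ≤ LL N := Nat.factorial_pos _

theorem LL_two (N : ℕ) : 2 ≤ LL N := by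
  have h1 : 2 ≤ 2 * (N + 1) * (N + 2) := by nlinarith
  exact h1.trans (Nat.self_le_factorial _)

theorem exists_ceil (A d : ℕ) (hd : 1 ≤ d) : ∃ c : ℕ, A ≤ c * d ∧ c * d < A + d := by
  refine ⟨(A + (d - 1)) / d, ?_, ?_⟩
  · have h1 := Nat.div_add_mod (A + (d - 1)) d
    have h2 := Nat.mod_lt (A + (d - 1)) (show 0 < d by omega)
    have h3 : (A + (d - 1)) / d * d = d * ((A + (d - 1)) / d) := mul_comm _ _
    omega
  · have h1 := Nat.div_add_mod (A + (d - 1)) d
    have h3 : (A + (d - 1)) / d * d = d * ((A + (d - 1)) / d) := mul_comm _ _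
    omega

/-- **The estimate.** -/
theorem arith_uni {M : Fin R → ℕ} (hM : ∀ j, 0 < M j) (a : Fin R → Fin r → ℕ) (n dF : Fin r → ℕ)
    (hd : ∀ i, 1 ≤ dF i) {N : ℕ} (hnN : ∀ i, n i ≤ N)
    (hpos : ∀ v, Adm M a v → 1 ≤ ∑ i, (((dF i : ℚ) - n i - 1) / dF i) * v i)
    (I : Finset (Fin r)) (hI : ∀ i ∈ I, ∀ v, Adm M a v →
      ∑ s, (((dF s : ℚ) - n s - 1) / dF s) * v s = 1 → v i = 0) :
    ∃ E : Fin r → ℕ, (∀ i, TT N * (n i + 1) ≤ E i * dF i) ∧
      (∀ i ∈ I, TT N * (n i + 1) + 1 ≤ E i * dF i) ∧
      ∀ v, Adm M a v → (TT N : ℤ) ≤ ∑ i, ((TT N : ℤ) - E i) * v i := by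
  classical
  obtain ⟨L, hL⟩ : ∃ L, L = LL N := ⟨_, rfl⟩
  obtain ⟨T, hT⟩ : ∃ T, T = TT N := ⟨_, rfl⟩
  have hTL : T = 2 * (N + 2) * L := by rw [hT, hL]; rfl
  have hL2 : 2 ≤ L := by rw [hL]; exact LL_two N
  rw [← hT]
  have hdq : ∀ i, (0 : ℚ) < dF i := fun i => by exact_mod_cast hd i
  -- the degrees
  have hdn : ∀ i, n i + 2 ≤ dF i := by
    intro i
    have h1 := hpos _ (adm_single hM a i)
    rw [Finset.sum_eq_single i, Pi.single_eq_same] at h1
    · by_contra hcon
      push Not at hcon
      have h2 : ((dF i : ℚ) - n i - 1) ≤ 0 := by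
        have : (dF i : ℚ) ≤ n i + 1 := by exact_mod_cast (by omega : dF i ≤ n i + 1)
        linarith
      have h3 : ((dF i : ℚ) - n i - 1) / dF i ≤ 0 := div_nonpos_of_nonpos_of_nonneg h2 (hdq i).le
      have h4 : ((dF i : ℚ) - n i - 1) / dF i * ((∏ j, M j : ℕ) : ℚ) ≤ 0 :=
        mul_nonpos_of_nonpos_of_nonneg h3 (by positivity)
      linarith
    · intro s _ hs
      rw [Pi.single_eq_of_ne hs]
      simp
    · intro h
      exact absurd (Finset.mem_univ _) h
  choose c hc1 hc2 using fun i => exists_ceil (T * (n i + 1)) (dF i) (hd i)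
  -- the small degrees
  have hsm : ∀ i, dF i ≤ 2 * (N + 1) * (N + 2) → ∃ q : ℕ, L = dF i * q ∧
      (T : ℤ) - c i = 2 * (N + 2) * (q * ((dF i : ℤ) - n i - 1)) ∧
      (L : ℤ) ≤ (N + 2) * (q * ((dF i : ℤ) - n i - 1)) := by
    intro i hi
    obtain ⟨q, hq⟩ : dF i ∣ L := by
      rw [hL]
      exact Nat.dvd_factorial (hd i) hi
    have h1 : c i * dF i = T * (n i + 1) := by
      have h2 : T * (n i + 1) = dF i * (2 * (N + 2) * q * (n i + 1)) := by
        rw [hTL, hq]
        ring
      have h3 := hc1 i
      have h4 := hc2 i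
      rw [h2] at h3 h4 ⊢
      have h5 : dF i * (2 * (N + 2) * q * (n i + 1)) ≤ dF i * c i := by
        rw [mul_comm (dF i) (c i)]
        exact h3
      have h6 : dF i * c i < dF i * (2 * (N + 2) * q * (n i + 1) + 1) := by
        rw [mul_comm (dF i) (c i), mul_add, mul_one]
        exact h4
      have h7 := Nat.le_of_mul_le_mul_left h5 (hd i)
      have h8 := Nat.lt_of_mul_lt_mul_left h6
      have h9 : c i = 2 * (N + 2) * q * (n i + 1) := by omega
      rw [h9]
      ring
    refine ⟨q, hq, ?_, ?_⟩
    · have hd0 : (dF i : ℤ) ≠ 0 := by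
        have := hd i
        exact_mod_cast (by omega : dF i ≠ 0)
      apply mul_right_cancel₀ hd0
      have h2 : (c i : ℤ) * dF i = T * (n i + 1) := by exact_mod_cast h1
      have h3 : (T : ℤ) = 2 * (N + 2) * (dF i * q) := by
        rw [hTL, hq]
        push_cast
        ring
      rw [sub_mul, h2, h3]
      ring
    · have h2 : (L : ℤ) = dF i * q := by exact_mod_cast hq
      have h3 : (n i : ℤ) + 2 ≤ dF i := by exact_mod_cast hdn i
      have h4 : (n i : ℤ) ≤ N := by exact_mod_cast hnN i
      have h5 : (0 : ℤ) ≤ q := by positivity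
      have h6 : (dF i : ℤ) ≤ (N + 2) * ((dF i : ℤ) - n i - 1) := by nlinarith
      calc (L : ℤ) = q * dF i := by rw [h2]; ring
        _ ≤ q * ((N + 2) * ((dF i : ℤ) - n i - 1)) := mul_le_mul_of_nonneg_left h6 h5
        _ = _ := by ring
  -- the large degrees
  have hlg : ∀ i, 2 * (N + 1) * (N + 2) < dF i → c i ≤ L := by
    intro i hi
    by_contra hcon
    push Not at hcon
    have h1 : (L + 1) * dF i ≤ c i * dF i := Nat.mul_le_mul_right _ hcon
    have h2 := hc2 i
    have h3 : T * (n i + 1) ≤ L * dF i := by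
      calc T * (n i + 1) ≤ T * (N + 1) := Nat.mul_le_mul_left _ (by have := hnN i; omega)
        _ = L * (2 * (N + 1) * (N + 2)) := by rw [hTL]; ring
        _ ≤ L * dF i := Nat.mul_le_mul_left _ hi.le
    have h4 : (L + 1) * dF i = L * dF i + dF i := by ring
    omega
  have hTz : (T : ℤ) = 2 * (N + 2) * L := by rw [hTL]; push_cast; ring
  have hLz : (2 : ℤ) ≤ L := by exact_mod_cast hL2
  have hNz : (0 : ℤ) ≤ N := by positivity
  have hT4 : (4 : ℤ) * L ≤ T := by rw [hTz]; nlinarith
  refine ⟨fun i => c i + if i ∈ I then 1 else 0, fun i => ?_, fun i hi => ?_, fun v hv => ?_⟩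
  · rw [add_mul]
    exact (hc1 i).trans (Nat.le_add_right _ _)
  · beta_reduce
    rw [if_pos hi, add_mul, one_mul]
    have h1 := hc1 i
    have h2 := hd i
    omega
  · -- lower bounds for the coefficients
    have hind : ∀ i, (((c i + if i ∈ I then 1 else 0 : ℕ)) : ℤ) ≤ c i + 1 := by
      intro i
      split_ifs
      · push_cast
        exact le_rfl
      · push_cast
        linarith
    have hws : ∀ i, dF i ≤ 2 * (N + 1) * (N + 2) →
        2 * (L : ℤ) - 1 ≤ (T : ℤ) - (c i + if i ∈ I then 1 else 0 : ℕ) := by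
      intro i hi
      obtain ⟨q, -, h2, h3⟩ := hsm i hi
      have h4 := hind i
      have h5 : 2 * (L : ℤ) ≤ T - c i := by
        rw [h2]
        linarith
      linarith
    have hwl : ∀ i, 2 * (N + 1) * (N + 2) < dF i →
        (T : ℤ) - L - 1 ≤ (T : ℤ) - (c i + if i ∈ I then 1 else 0 : ℕ) := by
      intro i hi
      have h1 : (c i : ℤ) ≤ L := by exact_mod_cast hlg i hi
      have h4 := hind i
      linarith
    obtain ⟨Λ, hΛ⟩ : ∃ Λ : Finset (Fin r), Λ = Finset.univ.filter
      fun i => 2 * (N + 1) * (N + 2) < dF i := ⟨_, rfl⟩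
    have hΛm : ∀ i, i ∈ Λ ↔ 2 * (N + 1) * (N + 2) < dF i := fun i => by
      rw [hΛ]
      simp
    obtain ⟨s, hs⟩ : ∃ s : ℤ, s = ∑ i ∈ Λ, (v i : ℤ) := ⟨_, rfl⟩
    obtain ⟨S, hS⟩ : ∃ S : ℤ, S = ∑ i ∈ Λᶜ, (v i : ℤ) := ⟨_, rfl⟩
    have hs0 : 0 ≤ s := by rw [hs]; positivity
    have hS0 : 0 ≤ S := by rw [hS]; positivity
    have hsplit : ∀ f : Fin r → ℤ, ∑ i, f i = ∑ i ∈ Λ, f i + ∑ i ∈ Λᶜ, f i := fun f =>
      (Finset.sum_add_sum_compl Λ f).symm
    have hlow : ((T : ℤ) - L - 1) * s + (2 * L - 1) * S ≤
        ∑ i, ((T : ℤ) - (c i + if i ∈ I then 1 else 0 : ℕ)) * v i := by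
      rw [hsplit, hs, hS, Finset.mul_sum, Finset.mul_sum]
      refine add_le_add (Finset.sum_le_sum fun i hi => ?_) (Finset.sum_le_sum fun i hi => ?_)
      · exact mul_le_mul_of_nonneg_right (hwl i ((hΛm i).1 hi)) (by positivity)
      · refine mul_le_mul_of_nonneg_right (hws i ?_) (by positivity)
        rw [Finset.mem_compl, hΛm] at hi
        omega
    rcases lt_or_ge s 2 with hs2 | hs2
    · rcases lt_or_ge s 1 with hs1 | hs1
      · -- no large degrees
        have hsz : s = 0 := by omega
        have hvz : ∀ i ∈ Λ, (v i : ℤ) = 0 := by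
          rw [hs] at hsz
          exact (Finset.sum_eq_zero_iff_of_nonneg fun i _ => by positivity).1 hsz
        choose q hq1 hq2 hq3 using hsm
        obtain ⟨ℓ, hℓ⟩ : ∃ ℓ : Fin r → ℤ, ℓ = fun i => if h : dF i ≤ 2 * (N + 1) * (N + 2) then
          (q i h : ℤ) * ((dF i : ℤ) - n i - 1) else 0 := ⟨_, rfl⟩
        have hℓ1 : ∀ i, i ∉ Λ → (T : ℤ) - c i = 2 * (N + 2) * ℓ i := by
          intro i hi
          rw [hΛm, not_lt] at hi
          rw [hℓ]
          beta_reduce
          rw [dif_pos hi]
          exact hq2 i hi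
        have hℓ2 : ∀ i, i ∉ Λ → (L : ℤ) ≤ (N + 2) * ℓ i := by
          intro i hi
          rw [hΛm, not_lt] at hi
          rw [hℓ]
          beta_reduce
          rw [dif_pos hi]
          exact hq3 i hi
        have hℓ3 : ∀ i, i ∉ Λ → (L : ℚ) * (((dF i : ℚ) - n i - 1) / dF i) = ℓ i := by
          intro i hi
          rw [hΛm, not_lt] at hi
          rw [hℓ]
          beta_reduce
          rw [dif_pos hi]
          have h1 : (L : ℚ) = dF i * q i hi := by exact_mod_cast hq1 i hi
          have h2 := (hdq i).ne'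
          rw [h1]
          push_cast
          field_simp
        obtain ⟨B, hB⟩ : ∃ B : ℤ, B = ∑ i, ℓ i * v i := ⟨_, rfl⟩
        have hBW : (L : ℚ) * ∑ i, (((dF i : ℚ) - n i - 1) / dF i) * v i = B := by
          rw [hB, Finset.mul_sum]
          push_cast
          refine Finset.sum_congr rfl fun i _ => ?_
          by_cases hi : i ∈ Λ
          · have h1 : (v i : ℚ) = 0 := by exact_mod_cast hvz i hi
            rw [h1]
            ring
          · rw [← mul_assoc, hℓ3 i hi]
        have hLq : (0 : ℚ) < L := by exact_mod_cast (by omega : 0 < L)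
        have hBL : (L : ℤ) ≤ B := by
          have h1 := mul_le_mul_of_nonneg_left (hpos v hv) hLq.le
          rw [mul_one, hBW] at h1
          exact_mod_cast h1
        obtain ⟨Z, hZ⟩ : ∃ Z : ℤ, Z = ∑ i ∈ I, (v i : ℤ) := ⟨_, rfl⟩
        have hsumE : ∑ i, ((T : ℤ) - (c i + if i ∈ I then 1 else 0 : ℕ)) * v i =
            2 * (N + 2) * B - Z := by
          have h1 : ∀ i, ((T : ℤ) - (c i + if i ∈ I then 1 else 0 : ℕ)) * v i =
              2 * (N + 2) * (ℓ i * v i) - if i ∈ I then (v i : ℤ) else 0 := by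
            intro i
            by_cases hi : i ∈ Λ
            · have h1 := hvz i hi
              rw [h1]
              split_ifs <;> simp
            · have h1 := hℓ1 i hi
              split_ifs
              · push_cast
                have h2 : ((T : ℤ) - (c i + 1)) = 2 * (N + 2) * ℓ i - 1 := by linarith
                rw [h2]
                ring
              · push_cast
                rw [add_zero, h1]
                ring
          rw [Finset.sum_congr rfl fun i _ => h1 i, Finset.sum_sub_distrib, ← Finset.mul_sum, ← hB]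
          congr 1
          rw [hZ, Finset.sum_ite_mem, Finset.univ_inter]
        rw [hsumE]
        have hZ0 : 0 ≤ Z := by rw [hZ]; positivity
        by_cases hZz : Z = 0
        · rw [hZz, hTz, sub_zero]
          exact mul_le_mul_of_nonneg_left hBL (by positivity)
        · have hB1 : (L : ℤ) + 1 ≤ B := by
            have h1 : B ≠ L := by
              intro h
              apply hZz
              rw [hZ]
              refine Finset.sum_eq_zero fun i hi => ?_
              have h2 : ∑ s, (((dF s : ℚ) - n s - 1) / dF s) * v s = 1 := by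
                have h3 : (L : ℚ) * ∑ i, (((dF i : ℚ) - n i - 1) / dF i) * v i = L * 1 := by
                  rw [hBW, h, mul_one]
                  norm_cast
                exact mul_left_cancel₀ hLq.ne' h3
              exact_mod_cast hI i hi v hv h2
            omega
          have hLZ : (L : ℤ) * Z ≤ (N + 2) * B := by
            have h1 : Z ≤ ∑ i, (v i : ℤ) := by
              rw [hZ]
              exact Finset.sum_le_univ_sum_of_nonneg fun i => by positivity
            have h2 : (L : ℤ) * ∑ i, (v i : ℤ) ≤ (N + 2) * B := by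
              rw [hB, Finset.mul_sum, Finset.mul_sum]
              refine Finset.sum_le_sum fun i _ => ?_
              by_cases hi : i ∈ Λ
              · rw [hvz i hi]
                simp
              · rw [← mul_assoc]
                exact mul_le_mul_of_nonneg_right (hℓ2 i hi) (by positivity)
            exact (mul_le_mul_of_nonneg_left h1 (by positivity)).trans h2
          rw [hTz]
          by_cases hZb : Z ≤ 2 * (N + 2)
          · nlinarith
          · push Not at hZb
            nlinarith
      · -- one large degree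
        have hs1' : s = 1 := by omega
        have hS1 : 1 ≤ S := by
          have h1 : (1 : ℚ) < ∑ i, (v i : ℚ) := by
            obtain ⟨i0, hi0⟩ : ∃ i0, v i0 ≠ 0 := by
              by_contra hcon
              push Not at hcon
              exact hv.1 (funext hcon)
            refine lt_of_le_of_lt (hpos v hv) (Finset.sum_lt_sum (fun i _ => ?_)
              ⟨i0, Finset.mem_univ _, ?_⟩)
            · have h2 : ((dF i : ℚ) - n i - 1) / dF i ≤ 1 := by
                rw [div_le_one (hdq i)]
                have : (0 : ℚ) ≤ n i := by positivity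
                linarith
              have h3 : (0 : ℚ) ≤ v i := by positivity
              nlinarith
            · have h2 : ((dF i0 : ℚ) - n i0 - 1) / dF i0 < 1 := by
                rw [div_lt_one (hdq i0)]
                have : (0 : ℚ) ≤ n i0 := by positivity
                linarith
              have h3 : (0 : ℚ) < v i0 := by exact_mod_cast Nat.pos_of_ne_zero hi0
              nlinarith
          have h2 : (1 : ℤ) < ∑ i, (v i : ℤ) := by exact_mod_cast h1
          rw [hsplit, ← hs, ← hS] at h2
          omega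
        refine le_trans ?_ hlow
        rw [hs1']
        nlinarith
    · refine le_trans ?_ hlow
      have h1 : 0 ≤ (2 * (L : ℤ) - 1) * S := mul_nonneg (by linarith) hS0
      have h2 : ((T : ℤ) - L - 1) * 2 ≤ ((T : ℤ) - L - 1) * s :=
        mul_le_mul_of_nonneg_left hs2 (by linarith)
      linarith

end Pool.Agent.Q57.EI
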