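import Pool.Agent.Q57.EI.Arith

/-!
Uniform pluricanonical forms.
-/

set_option autoImplicit false
set_option linter.overlappingInstances false
set_option linter.unusedSectionVars false
set_option maxHeartbeats 1000000

open FF MvPolynomial Pool.Agent.W603.LV Pool.Agent.W602.GT Pool.Agent.W602.Cov
open Pool.Agent.TH756.PR Pool.Agent.TH122.AB Pool.Agent.TH756.PN Pool.Agent.Y169.CH

namespace Pool.Agent.Q57.EI

variable {K : Type} [Field K] [Algebra ℂ K] {r N R : ℕ} {n : Fin r → ℕ}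
  (e : ((i : Fin r) × Fin (n i)) ≃ Fin N)

/-- **The uniform pluricanonical forms.** -/
theorem kod_uni (hn : ∀ i, 1 ≤ n i) {x : ∀ i, Fin (n i + 1) → K} (hx : ∀ i j, x i j ≠ 0)
    (hbas : IsTranscendenceBasis ℂ (uu e x)) {F : ∀ i, MvPolynomial (Fin (n i + 1)) ℂ}
    {dF : Fin r → ℕ} (hdF : ∀ i, 1 ≤ dF i) (hs : ∀ i, SmF (F i))
    (hh : ∀ i, (F i).IsHomogeneous (dF i)) (hFx : ∀ i, aeval (x i) (F i) ≠ 0) {z : Fin R → K}
    {M : Fin R → ℕ} (hM : ∀ j, 0 < M j) {a : Fin R → Fin r → ℕ} (hz0 : ∀ j, z j ≠ 0)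
    (hz : ∀ j, z j ^ M j = ∏ i, (aeval (x i) (F i) / x i 0 ^ dF i) ^ a j i)
    (hdiv : ∀ j i, M j ∣ a j i * dF i) {N1 : ℕ} (hN1 : ∀ i, n i ≤ N1)
    (hpos : ∀ v, Adm M a v → 1 ≤ ∑ i, (((dF i : ℚ) - n i - 1) / dF i) * v i)
    (I : Finset (Fin r)) (hI : ∀ i ∈ I, ∀ v, Adm M a v →
      ∑ s, (((dF s : ℚ) - n s - 1) / dF s) * v s = 1 → v i = 0)
    (h : ℕ) (f : Fin h → Fin N) (hf : Function.Injective f) (hfI : ∀ b, (e.symm (f b)).1 ∈ I) :
    ∃ ω : Fin (h + 1) → (Fin N → Derivation ℂ K K) → K,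
      (∀ b, IsPluri (TT N1) (ω b) ∧ ∀ P : Place ℂ K, ∀ D : Fin N → Derivation ℂ K K,
        (∀ c, DerReg P (D c)) → P.Reg (ω b D)) ∧
      ∃ D, ω 0 D ≠ 0 ∧ AlgebraicIndependent ℂ (fun b : Fin h => ω b.succ D / ω 0 D) := by
  classical
  obtain ⟨E, hE0, hE1, hkey⟩ := arith_uni hM a n dF hdF hN1 hpos I hI
  obtain ⟨T, hT⟩ : ∃ T, T = TT N1 := ⟨_, rfl⟩
  rw [← hT] at hE0 hE1 hkey ⊢
  obtain ⟨D0, hD0⟩ := exists_om_ne e (fun i => hx i 0) hbas
  have hLne : ∀ i, x i 0 ≠ 0 := fun i => hx i 0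
  choose ee hee using fun i => Nat.exists_eq_add_of_le (hE0 i)
  have heeI : ∀ i ∈ I, 1 ≤ ee i := by
    intro i hi
    have h1 := hE1 i hi
    have h2 := hee i
    omega
  let den : K := ∏ i, aeval (x i) (F i) ^ E i
  have hden : den ≠ 0 := Finset.prod_ne_zero_iff.2 fun i _ => pow_ne_zero _ (hFx i)
  have hnum : ∏ i, x i 0 ^ ee i ≠ 0 := Finset.prod_ne_zero_iff.2 fun i _ => pow_ne_zero _ (hLne i)
  let Fb : Fin (h + 1) → Fin (N + 1) := Fin.cases 0 fun b => (f b).succ
  refine ⟨fun b D => om e D x ^ T / den * (∏ i, x i 0 ^ ee i) *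
    ∏ i ∈ I, x i (pick e (Fb b) i) / x i 0, fun b => ⟨?_, fun P D hD => ?_⟩, D0, ?_, ?_⟩
  · intro A D
    dsimp only
    rw [om_lin, mul_pow]
    ring
  · -- the multiplicities
    have hmin : ∀ i, ∃ j : Fin (n i + 1), ∀ l, P.ord (x i j) ≤ P.ord (x i l) := by
      intro i
      obtain ⟨j, -, hj⟩ := Finset.exists_min_image Finset.univ (fun l => P.ord (x i l))
        ⟨(0 : Fin (n i + 1)), Finset.mem_univ _⟩
      exact ⟨j, fun l => hj l (Finset.mem_univ l)⟩
    choose j hj using hmin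
    obtain ⟨α, hα⟩ : ∃ α : Fin r → ℤ, α = fun i => P.ord (x i (j i)) := ⟨_, rfl⟩
    have hα1 : ∀ i l, α i ≤ P.ord (x i l) := fun i l => by
      rw [hα]
      exact hj i l
    have hv : ∀ i, ∃ v : ℕ, P.ord (aeval (x i) (F i)) = dF i * α i + v := by
      intro i
      have h1 : aeval (x i) (F i) = x i (j i) ^ dF i *
          aeval (fun l => x i l / x i (j i)) (F i) := by
        rw [← aeval_smul_form (hh i)]
        congr 2
        funext l
        rw [mul_div_cancel₀ _ (hx i _)]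
      have h2 : aeval (fun l => x i l / x i (j i)) (F i) ≠ 0 := by
        intro h0
        rw [h0, mul_zero] at h1
        exact hFx i h1
      have h3 : P.Reg (aeval (fun l => x i l / x i (j i)) (F i)) := by
        refine reg_aeval (fun l => Or.inr ?_) _
        rw [P.ord_div (hx i l) (hx i _)]
        linarith [hj i l]
      have h4 := h3.resolve_left h2
      refine ⟨(P.ord (aeval (fun l => x i l / x i (j i)) (F i))).toNat, ?_⟩
      rw [Int.toNat_of_nonneg h4, h1, P.ord_mul (pow_ne_zero _ (hx i _)) h2, P.ord_pow, hα]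
    choose v hv using hv
    have hom := om_ord e hn P D hD hx hbas hs hh hFx α hα1 j (fun i => by rw [hα]) v hv
    -- the divisibility
    have hT' : ∀ j, M j ∣ ∑ i, a j i * v i := by
      intro c
      have h1 := congrArg P.ord (hz c)
      rw [P.ord_pow, ord_prod' P Finset.univ _ fun i _ => pow_ne_zero _
        (div_ne_zero (hFx i) (pow_ne_zero _ (hx i 0)))] at h1
      have h2 : ∀ i, P.ord ((aeval (x i) (F i) / x i 0 ^ dF i) ^ a c i) =
          (a c i * dF i : ℕ) * (α i - P.ord (x i 0)) + ((a c i * v i : ℕ) : ℤ) := by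
        intro i
        rw [P.ord_pow, P.ord_div (hFx i) (pow_ne_zero _ (hx i 0)), P.ord_pow, hv]
        push_cast
        ring
      rw [Finset.sum_congr rfl fun i _ => h2 i, Finset.sum_add_distrib] at h1
      have h3 : (M c : ℤ) ∣ ∑ i, ((a c i * dF i : ℕ) : ℤ) * (α i - P.ord (x i 0)) :=
        Finset.dvd_sum fun i _ => Dvd.dvd.mul_right (by exact_mod_cast hdiv c i) _
      have h4 : (M c : ℤ) ∣ ∑ i, ((a c i * v i : ℕ) : ℤ) := by
        have h5 : ∑ i, ((a c i * v i : ℕ) : ℤ) = M c * P.ord (z c) -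
            ∑ i, ((a c i * dF i : ℕ) : ℤ) * (α i - P.ord (x i 0)) := by
          rw [h1]
          ring
        rw [h5]
        exact dvd_sub (dvd_mul_right _ _) h3
      exact_mod_cast h4
    -- the order
    have hge1 : Ge P (T * (∑ i, ((n i : ℤ) + 1) * α i + ∑ i, (v i : ℤ) -
        (if v = 0 then 0 else 1)) - ∑ i, (E i : ℤ) * (dF i * α i + v i)) (om e D x ^ T / den) := by
      have h1 := ge_div hden (hom.pow T)
      refine h1.mono (le_of_eq ?_)
      simp only [den]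
      rw [ord_prod' P Finset.univ _ fun i _ => pow_ne_zero _ (hFx i)]
      congr 1
      exact Finset.sum_congr rfl fun i _ => by rw [P.ord_pow, hv]
    have hge2 : Ge P (∑ i, (ee i : ℤ) * α i) ((∏ i, x i 0 ^ ee i) *
        ∏ i ∈ I, x i (pick e (Fb b) i) / x i 0) := by
      have h0 : (∏ i, x i 0 ^ ee i) * ∏ i ∈ I, x i (pick e (Fb b) i) / x i 0 =
          ∏ i, x i 0 ^ ee i * (if i ∈ I then x i (pick e (Fb b) i) / x i 0 else 1) := by
        rw [Finset.prod_mul_distrib, Finset.prod_ite_mem, Finset.univ_inter]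
      rw [h0]
      refine Ge.prod Finset.univ _ _ fun i _ => ?_
      right
      by_cases hi : i ∈ I
      · rw [if_pos hi, P.ord_mul (pow_ne_zero _ (hLne i)) (div_ne_zero (hx i _) (hLne i)),
          P.ord_div (hx i _) (hLne i), P.ord_pow]
        have h1 := hα1 i (pick e (Fb b) i)
        have h2 := hα1 i 0
        have h3 : (1 : ℤ) ≤ ee i := by exact_mod_cast heeI i hi
        nlinarith
      · rw [if_neg hi, mul_one, P.ord_pow]
        exact mul_le_mul_of_nonneg_left (hα1 i 0) (by positivity)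
    have h1 : T * (∑ i, ((n i : ℤ) + 1) * α i) + ∑ i, (ee i : ℤ) * α i =
        ∑ i, (E i : ℤ) * (dF i * α i) := by
      rw [Finset.mul_sum, ← Finset.sum_add_distrib]
      refine Finset.sum_congr rfl fun i _ => ?_
      have h2 : (E i : ℤ) * dF i = T * (n i + 1) + ee i := by exact_mod_cast hee i
      calc (T : ℤ) * (((n i : ℤ) + 1) * α i) + ee i * α i = (T * (n i + 1) + ee i) * α i := by ring
        _ = (E i * dF i) * α i := by rw [h2]
        _ = _ := by ring
    have h2 : ∑ i, (E i : ℤ) * (dF i * α i + v i) =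
        ∑ i, (E i : ℤ) * (dF i * α i) + ∑ i, (E i : ℤ) * v i := by
      rw [← Finset.sum_add_distrib]
      exact Finset.sum_congr rfl fun i _ => by ring
    have h3 : ∑ i, ((T : ℤ) - E i) * v i = T * ∑ i, (v i : ℤ) - ∑ i, (E i : ℤ) * v i := by
      rw [Finset.mul_sum, ← Finset.sum_sub_distrib]
      exact Finset.sum_congr rfl fun i _ => by ring
    change P.Reg (om e D x ^ T / den * (∏ i, x i 0 ^ ee i) *
      ∏ i ∈ I, x i (pick e (Fb b) i) / x i 0)
    rw [mul_assoc]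
    refine (hge1.mul hge2).mono ?_
    rw [h2]
    by_cases hv0 : v = 0
    · rw [if_pos hv0, hv0]
      simp only [Pi.zero_apply, Nat.cast_zero, Finset.sum_const_zero, mul_zero, add_zero, sub_zero]
      linarith
    · rw [if_neg hv0]
      have h4 := hkey v ⟨hv0, hT'⟩
      rw [h3] at h4
      have h5 : (T : ℤ) * (∑ i, ((n i : ℤ) + 1) * α i + ∑ i, (v i : ℤ) - 1) =
          T * (∑ i, ((n i : ℤ) + 1) * α i) + T * ∑ i, (v i : ℤ) - T := by
        ring
      rw [h5]
      linarith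
  · change om e D0 x ^ T / den * (∏ i, x i 0 ^ ee i) * ∏ i ∈ I, x i (pick e 0 i) / x i 0 ≠ 0
    exact mul_ne_zero (mul_ne_zero (div_ne_zero (pow_ne_zero _ hD0) hden) hnum)
      (Finset.prod_ne_zero_iff.2 fun i _ => div_ne_zero (hx i _) (hLne i))
  · have hpf : om e D0 x ^ T / den * (∏ i, x i 0 ^ ee i) ≠ 0 :=
      mul_ne_zero (div_ne_zero (pow_ne_zero _ hD0) hden) hnum
    have e1 : (fun b : Fin h => om e D0 x ^ T / den * (∏ i, x i 0 ^ ee i) *
        (∏ i ∈ I, x i (pick e (f b).succ i) / x i 0) /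
        (om e D0 x ^ T / den * (∏ i, x i 0 ^ ee i) * ∏ i ∈ I, x i (pick e 0 i) / x i 0)) =
          uu e x ∘ f := by
      funext b
      rw [mul_div_mul_left _ _ hpf, pick_ratioI e (fun i => hx i 0) hLne I _ (hfI b)]
      rfl
    change AlgebraicIndependent ℂ (fun b : Fin h =>
      om e D0 x ^ T / den * (∏ i, x i 0 ^ ee i) * (∏ i ∈ I, x i (pick e (f b).succ i) / x i 0) /
        (om e D0 x ^ T / den * (∏ i, x i 0 ^ ee i) * ∏ i ∈ I, x i (pick e 0 i) / x i 0))
    rw [e1]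
    exact hbas.1.comp f hf

end Pool.Agent.Q57.EI
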