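import Pool.Agent.Q57.EI.Kod
import Pool.Agent.Y169.CH.Top

/-!
Uniform effective nonvanishing: the main theorem.
-/

set_option autoImplicit false
set_option linter.overlappingInstances false
set_option linter.unusedSectionVars false
set_option maxHeartbeats 1000000

open FF MvPolynomial Pool.Agent.W603.LV Pool.Agent.W602.GT Pool.Agent.W602.Cov
open Pool.Agent.TH756.PR Pool.Agent.TH122.AB Pool.Agent.TH756.PN Pool.Agent.Y169.CH

namespace Pool.Agent.Q57.EI

variable {r N R : ℕ} {n : Fin r → ℕ} {K : Type} [Field K] [Algebra ℂ K]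

/-- the quotients of the sections of `T K` contain `h` algebraically independent functions -/
def KodT (T N : ℕ) (K : Type) [Field K] [Algebra ℂ K] (h : ℕ) : Prop :=
  ∃ ω : Fin (h + 1) → (Fin N → Derivation ℂ K K) → K, (∀ b, ASec N {1} T 1 (ω b)) ∧
    ∃ D, ω 0 D ≠ 0 ∧ AlgebraicIndependent ℂ (fun b : Fin h => ω b.succ D / ω 0 D)

theorem TT_pos (N : ℕ) : 0 < TT N := by
  have h1 := LL_pos N
  unfold TT
  positivity

theorem akod_of {T h : ℕ} (hT : 0 < T) (h1 : KodT T N K h) : AKod N K h := ⟨T, hT, h1⟩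

/-- **Uniform effective nonvanishing.** -/
theorem main_uni (hr : 1 ≤ r) (hn : ∀ i, 1 ≤ n i) (hN : N = ∑ i, n i)
    {F : ∀ i, MvPolynomial (Fin (n i + 1)) ℂ} {d : Fin r → ℕ} (hd : ∀ i, 1 ≤ d i)
    (hh : ∀ i, (F i).IsHomogeneous (d i)) (hs : ∀ i, SmF (F i))
    {x : ∀ i, Fin (n i + 1) → K} (hx0 : ∀ i, x i 0 ≠ 0)
    (hbas : IsTranscendenceBasis ℂ (aff x)) {m : Fin R → ℕ} (hm : ∀ j, 0 < m j)
    {a : Fin R → Fin r → ℕ} (hdiv : ∀ j i, m j ∣ a j i * d i) {z : Fin R → K}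
    (hz : ∀ j, z j ^ m j = ∏ i, (aeval (x i) (F i) / x i 0 ^ d i) ^ a j i)
    (hgen : IntermediateField.adjoin ℂ (Set.range (aff x) ∪ Set.range z) = ⊤) :
    (APsef N K ↔ KodT (TT N) N K 0) ∧
      (APsef N K → ∃ h, KodT (TT N) N K h ∧ ANum N K h) := by
  classical
  obtain ⟨I, hId⟩ : ∃ I : Finset (Fin r), I = Finset.univ.filter fun i => ∀ v, Adm m a v →
      ∑ s, (((d s : ℚ) - n s - 1) / d s) * v s = 1 → v i = 0 := ⟨_, rfl⟩
  have hI : ∀ i, i ∈ I ↔ ∀ v, Adm m a v →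
      ∑ s, (((d s : ℚ) - n s - 1) / d s) * v s = 1 → v i = 0 := fun i => by
    rw [hId]
    simp
  obtain ⟨h1, h2, h3⟩ := main (N := N) hr hn hN hd hh hs hx0 hbas hm hdiv hz hgen I hI
  have hnN : ∀ i, n i ≤ N := fun i => by
    rw [hN]
    exact Finset.single_le_sum (f := n) (fun _ _ => Nat.zero_le _) (Finset.mem_univ _)
  obtain ⟨N', rfl⟩ : ∃ N', N = N' + 1 := by
    have h1 : n ⟨0, hr⟩ ≤ ∑ i, n i :=
      Finset.single_le_sum (f := n) (fun _ _ => Nat.zero_le _) (Finset.mem_univ _)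
    have h2 := hn ⟨0, hr⟩
    exact ⟨N - 1, by omega⟩
  let e : ((i : Fin r) × Fin (n i)) ≃ Fin (N' + 1) :=
    finSigmaFinEquiv.trans (finCongr hN.symm)
  have hbas' : IsTranscendenceBasis ℂ (uu e x) := basis_uu e hbas
  have hx : ∀ i j, x i j ≠ 0 := by
    intro i j
    refine Fin.cases (hx0 i) (fun l => ?_) j
    intro h0
    have h1 : aff x ⟨i, l⟩ = 0 := by
      change x i l.succ / x i 0 = 0
      rw [h0, zero_div]
    exact hbas.1.ne_zero _ h1
  have hFx : ∀ i, aeval (x i) (F i) ≠ 0 := by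
    intro i h0
    have h1 : aeval (uu e x) (dh e i (F i)) = 0 := by
      rw [aeval_dh e hx0 (hh i), h0, zero_div]
    have h2 := (injective_iff_map_eq_zero _).1 hbas'.1 _ h1
    obtain ⟨q, c, hq, hc, -⟩ := exists_sh (hh i) (smF_ne (hs i))
    -- the dehomogenisation is injective on forms
    apply smF_ne (hs i)
    by_contra hF
    obtain ⟨b, hb⟩ := MvPolynomial.ne_zero_iff.1 hF
    have h3 : coeff (ex e i b) (dh e i (F i)) = coeff b (F i) := by
      rw [coeff_dh, Finset.sum_eq_single b]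
      · rw [if_pos rfl]
      · intro b' hb' hne
        rw [if_neg]
        intro hex
        apply hne
        have h4 : ∀ l : Fin (n i), b' l.succ = b l.succ := by
          intro l
          rw [← ex_at e b' l, ← ex_at e b l, hex]
        have h5 := sum_hom (hh i) hb'
        have h6 := sum_hom (hh i) (mem_support_iff.2 hb)
        rw [Fin.sum_univ_succ] at h5 h6
        rw [Finset.sum_congr rfl fun l _ => h4 l] at h5
        ext j
        refine Fin.cases ?_ (fun l => h4 l) j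
        omega
      · intro h
        rw [notMem_support_iff] at h
        rw [if_pos rfl, h]
    rw [h2, coeff_zero] at h3
    exact hb h3.symm
  have hz0 : ∀ j, z j ≠ 0 := by
    intro j h0
    have h1 := hz j
    rw [h0, zero_pow (hm j).ne'] at h1
    exact (Finset.prod_ne_zero_iff.2 fun i _ => pow_ne_zero _
      (div_ne_zero (hFx i) (pow_ne_zero _ (hx0 i)))) h1.symm
  -- the lower bound
  have hlow : (∀ v, Adm m a v → 1 ≤ ∑ i, (((d i : ℚ) - n i - 1) / d i) * v i) →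
      ∀ (h : ℕ) (f : Fin h → Fin (N' + 1)), Function.Injective f → (∀ b, (e.symm (f b)).1 ∈ I) →
        KodT (TT (N' + 1)) (N' + 1) K h := by
    intro hpos h f hf hfI
    obtain ⟨ω, hω, D, hD, hind⟩ := kod_uni e hn hx hbas' hd hs hh hFx hm hz0 hz hdiv hnN hpos I
      (fun i hi v hv h1 => (hI i).1 hi v hv h1) h f hf hfI
    refine ⟨ω, fun b => ⟨(hω b).1, fun P hP D hD => ?_⟩, D, hD, hind⟩
    refine ((hω b).2 P D hD).imp id fun h => ⟨1, by simp, one_ne_zero, ?_⟩
    rw [P.ord_one, mul_zero]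
    exact h
  refine ⟨⟨fun hp => hlow (h1.1 hp) 0 Fin.elim0 (fun b => b.elim0) fun b => b.elim0,
    fun hk => psef_of_kod (akod_of (TT_pos _) hk)⟩, fun hp => ⟨∑ i ∈ I, n i, ?_, (h3 (h1.1 hp)).2⟩⟩
  have hcard := card_free e I
  obtain ⟨s, hs⟩ : ∃ s : Finset (Fin (N' + 1)), s = Finset.univ.filter
    fun b : Fin (N' + 1) => ∀ t : {i : Fin r // i ∉ I}, b ∉ bk e t.1 := ⟨_, rfl⟩
  rw [← hs] at hcard
  refine hlow (h1.1 hp) (∑ i ∈ I, n i) (s.orderEmbOfFin hcard) (s.orderEmbOfFin hcard).injective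
    fun b => ?_
  have hb : s.orderEmbOfFin hcard b ∈ s := Finset.orderEmbOfFin_mem s hcard b
  obtain ⟨c, hc⟩ : ∃ c, c = s.orderEmbOfFin hcard b := ⟨_, rfl⟩
  rw [← hc] at hb ⊢
  rw [hs, Finset.mem_filter] at hb
  by_contra hcon
  exact hb.2 ⟨_, hcon⟩ ((mem_bk e).2 rfl)

end Pool.Agent.Q57.EI
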